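import Mathlib

set_option autoImplicit false
set_option linter.unusedSectionVars false

namespace Pool.Agent.H109R2.BH

open Function

section

variable (X : Type) [Group X]

/-- Nontrivial elements. -/
abbrev Nt : Type := {x : X // x ≠ 1}

/-- Infinite alternating words. -/
abbrev Om : Type := Bool × (ℕ → Nt X)

variable {X}

/-- prepend -/
def pre (a : Nt X) (t : ℕ → Nt X) : ℕ → Nt X := fun n => Nat.casesOn n a t

theorem pre_zero (a : Nt X) (t : ℕ → Nt X) : pre a t 0 = a := rfl

theorem pre_tail (t : ℕ → Nt X) : pre (t 0) (fun n => t (n + 1)) = t := by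
  funext n
  cases n <;> rfl

open Classical in
/-- Decomposition of the words with respect to the factor `b`. -/
noncomputable def dec (b : Bool) : Om X ≃ X × (ℕ → Nt X) where
  toFun p := if p.1 = b then ((p.2 0).1, fun n => p.2 (n + 1)) else (1, p.2)
  invFun q := if h : q.1 = 1 then (!b, q.2) else (b, pre ⟨q.1, h⟩ q.2)
  left_inv := by
    rintro ⟨c, s⟩
    by_cases h : c = b
    · subst h
      have h0 : ((s 0 : Nt X) : X) ≠ 1 := (s 0).2
      simp only [if_true]
      rw [dif_neg h0]
      congr 1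
      exact pre_tail s
    · have hc : (!b) = c := by
        cases b <;> cases c <;> simp_all
      simp only [h, if_false, dif_pos, hc]
  right_inv := by
    rintro ⟨x, t⟩
    by_cases h : x = 1
    · subst h
      simp
    · simp only [h, dif_neg, not_false_eq_true, if_true, pre_zero]
      rfl

/-- Translation action. -/
def act : X →* Equiv.Perm (X × (ℕ → Nt X)) where
  toFun x := Equiv.prodCongr (Equiv.mulLeft x) (Equiv.refl _)
  map_one' := by ext p <;> simp
  map_mul' x y := by ext p <;> simp [mul_assoc]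

/-- The two actions of `X`. -/
noncomputable def th (b : Bool) : X →* Equiv.Perm (Om X) :=
  ((dec (X := X) b).symm.permCongrHom).toMonoidHom.comp act

theorem th_apply (b : Bool) (x : X) (p : Om X) :
    th b x p = (dec b).symm (x * (dec b p).1, (dec b p).2) := by
  simp [th, act, Equiv.permCongrHom]
  rfl

/-- The elements `x₁ x₂`. -/
noncomputable def aa (x : Nt X) : Equiv.Perm (Om X) := th true x.1 * th false x.1

/-- words starting with `x` in factor `b` -/
def St (b : Bool) (x : X) : Set (Om X) := {p | p.1 = b ∧ ((p.2 0 : Nt X) : X) = x}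

theorem dec_eq (b : Bool) (p : Om X) (h : p.1 = b) :
    dec b p = ((p.2 0).1, fun n => p.2 (n + 1)) := by
  show (if p.1 = b then ((p.2 0).1, fun n => p.2 (n + 1)) else ((1 : X), p.2)) = _
  rw [if_pos h]

theorem dec_ne (b : Bool) (p : Om X) (h : ¬ p.1 = b) : dec b p = (1, p.2) := by
  show (if p.1 = b then ((p.2 0).1, fun n => p.2 (n + 1)) else ((1 : X), p.2)) = _
  rw [if_neg h]

theorem dec_symm_ne (b : Bool) (q : X × (ℕ → Nt X)) (h : q.1 ≠ 1) :
    (dec b).symm q = (b, pre ⟨q.1, h⟩ q.2) := by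
  classical
  show (if h : q.1 = 1 then (!b, q.2) else (b, pre ⟨q.1, h⟩ q.2)) = _
  rw [dif_neg h]

theorem th_mem (b : Bool) (x : X) (p : Om X) (hp : p ∉ St b x⁻¹) (hx : x ≠ 1) :
    (th b x p).1 = b := by
  rw [th_apply]
  have hne : x * (dec b p).1 ≠ 1 := by
    intro h
    have h1 : (dec b p).1 = x⁻¹ := (eq_inv_of_mul_eq_one_right h)
    by_cases hb : p.1 = b
    · rw [dec_eq b p hb] at h1
      exact hp ⟨hb, h1⟩
    · rw [dec_ne b p hb] at h1
      have h2 : (1 : X) = x⁻¹ := h1
      exact hx (inv_eq_one.mp h2.symm)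
  rw [dec_symm_ne b (x * (dec b p).1, (dec b p).2) hne]

theorem th_other (b : Bool) (x : X) (p : Om X) (hp : p.1 = !b) (hx : x ≠ 1) :
    th b x p ∈ St b x := by
  rw [th_apply]
  have hb : ¬ (p.1 = b) := by rw [hp]; cases b <;> simp
  rw [dec_ne b p hb]
  have h2 : (x * 1 : X) ≠ 1 := by simpa using hx
  rw [dec_symm_ne b ((x * (1 : X), p.2) : X × (ℕ → Nt X)) h2]
  refine ⟨rfl, ?_⟩
  show x * 1 = x
  simp

theorem aa_mem (x : Nt X) (p : Om X) (hp : p ∉ St false x.1⁻¹) : aa x p ∈ St true x.1 := by
  unfold aa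
  rw [Equiv.Perm.mul_apply]
  exact th_other true x.1 _ (by rw [th_mem false x.1 p hp x.2]; rfl) x.2

theorem aa_inv_mem (x : Nt X) (p : Om X) (hp : p ∉ St true x.1) :
    (aa x)⁻¹ p ∈ St false x.1⁻¹ := by
  have h : (aa x)⁻¹ = th false x.1⁻¹ * th true x.1⁻¹ := by
    unfold aa
    rw [mul_inv_rev, map_inv, map_inv]
  rw [h, Equiv.Perm.mul_apply]
  have hx : x.1⁻¹ ≠ 1 := by
    intro h; exact x.2 (inv_eq_one.mp h)
  apply th_other false x.1⁻¹ _ _ hx
  rw [th_mem true x.1⁻¹ p (by rw [inv_inv]; exact hp) hx]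
  rfl

variable [Nontrivial (Nt X)]

theorem St_nonempty (b : Bool) (x : X) (hx : x ≠ 1) : (St b x).Nonempty :=
  ⟨(b, fun _ => ⟨x, hx⟩), rfl, rfl⟩

theorem St_disj (b : Bool) (x y : X) (h : x ≠ y) : Disjoint (St b x) (St b y) := by
  rw [Set.disjoint_left]
  rintro p ⟨_, h1⟩ ⟨_, h2⟩
  exact h (h1.symm.trans h2)

theorem St_disj' (b c : Bool) (hbc : b ≠ c) (x y : X) : Disjoint (St b x) (St c y) := by
  rw [Set.disjoint_left]
  rintro p ⟨h1, _⟩ ⟨h2, _⟩
  exact hbc (h1.symm.trans h2)

theorem lift_inj : Injective (FreeGroup.lift (fun x : Nt X => aa x)) := by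
  apply FreeGroup.injective_lift_of_ping_pong (fun x : Nt X => aa x)
    (fun x : Nt X => St true x.1) (fun x : Nt X => St false x.1⁻¹)
  · intro x; exact St_nonempty _ _ x.2
  · intro x y hxy
    exact St_disj _ _ _ (fun h => hxy (Subtype.ext h))
  · intro x y hxy
    exact St_disj _ _ _ (fun h => hxy (Subtype.ext (inv_injective h)))
  · intro x y
    exact St_disj' _ _ (by simp) _ _
  · rintro x _ ⟨p, hp, rfl⟩
    exact aa_mem x p hp
  · rintro x _ ⟨p, hp, rfl⟩
    exact aa_inv_mem x p hp

theorem lift_inv_inj : Injective (FreeGroup.lift (fun x : Nt X => (aa x)⁻¹)) := by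
  apply FreeGroup.injective_lift_of_ping_pong (fun x : Nt X => (aa x)⁻¹)
    (fun x : Nt X => St false x.1⁻¹) (fun x : Nt X => St true x.1)
  · intro x
    exact St_nonempty _ _ (fun h => x.2 (inv_eq_one.mp h))
  · intro x y hxy
    exact St_disj _ _ _ (fun h => hxy (Subtype.ext (inv_injective h)))
  · intro x y hxy
    exact St_disj _ _ _ (fun h => hxy (Subtype.ext h))
  · intro x y
    exact St_disj' _ _ (by simp) _ _
  · rintro x _ ⟨p, hp, rfl⟩
    exact aa_inv_mem x p hp
  · rintro x _ ⟨p, hp, rfl⟩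
    have := aa_mem x p hp
    simpa using this

/-- The vertex group. -/
abbrev V (X : Type) [Group X] : Type := Equiv.Perm (Om X) × ℤˣ

/-- The two embeddings of the free group. -/
noncomputable def phi : ∀ _ : Bool, FreeGroup (Nt X) →* V X
  | true => (MonoidHom.inl _ _).comp (FreeGroup.lift (fun x : Nt X => aa x))
  | false => FreeGroup.lift (fun x : Nt X => (((aa x)⁻¹, -1) : V X))

theorem phi_inj (i : Bool) : Injective (phi (X := X) i) := by
  cases i
  · have h : (MonoidHom.fst (Equiv.Perm (Om X)) ℤˣ).comp (phi (X := X) false)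
        = FreeGroup.lift (fun x : Nt X => (aa x)⁻¹) := by
      apply FreeGroup.ext_hom
      intro x
      simp [phi]
    have h2 := lift_inv_inj (X := X)
    rw [← h, MonoidHom.coe_comp] at h2
    exact h2.of_comp
  · show Injective ((MonoidHom.inl _ _).comp (FreeGroup.lift (fun x : Nt X => aa x)))
    rw [MonoidHom.coe_comp]
    apply Injective.comp _ lift_inj
    intro a b h
    exact congrArg Prod.fst h

/-- The amalgam. -/
abbrev Ga (X : Type) [Group X] : Type := Monoid.PushoutI (phi (X := X))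

theorem exists_homs :
    ∃ (θ : Fin 4 → X →* Ga X) (w : Ga X), w ≠ 1 ∧
      ∀ x : X, x ≠ 1 → θ 0 x * θ 1 x * θ 2 x * θ 3 x = w := by
  let o : ∀ i : Bool, V X →* Ga X := fun i => Monoid.PushoutI.of (φ := phi (X := X)) i
  let j : Equiv.Perm (Om X) →* V X := MonoidHom.inl _ _
  refine ⟨![(o true).comp (j.comp (th true)), (o true).comp (j.comp (th false)),
    (o false).comp (j.comp (th true)), (o false).comp (j.comp (th false))],
    o false (1, -1), ?_, ?_⟩
  · intro h
    have h1 : ((1, -1) : V X) = 1 := by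
      apply Monoid.PushoutI.of_injective (φ := phi (X := X)) phi_inj false
      rw [map_one]
      exact h
    have h2 : (-1 : ℤˣ) = 1 := congrArg Prod.snd h1
    revert h2
    decide
  · intro x hx
    show o true (j (th true x)) * o true (j (th false x)) * o false (j (th true x))
      * o false (j (th false x)) = o false (1, -1)
    have e1 : o true (j (th true x)) * o true (j (th false x))
        = o true (phi true (FreeGroup.of (⟨x, hx⟩ : Nt X))) := by
      rw [← map_mul, ← map_mul]
      simp [phi, aa, j]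
    have e2 : o true (phi true (FreeGroup.of (⟨x, hx⟩ : Nt X)))
        = o false (phi false (FreeGroup.of (⟨x, hx⟩ : Nt X))) := by
      show Monoid.PushoutI.of true _ = Monoid.PushoutI.of false _
      rw [Monoid.PushoutI.of_apply_eq_base, Monoid.PushoutI.of_apply_eq_base]
    rw [mul_assoc, e1, e2, ← map_mul, ← map_mul]
    congr 1
    simp [phi, aa, j]

end

end Pool.Agent.H109R2.BH
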