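import Pool.Agent.H109R2.BH.Grp

set_option autoImplicit false
set_option linter.style.haveILetI false

namespace Pool.Agent.H109R2.BH

open Filter Topology

/-- The discrete metric. -/
noncomputable def discMetric (D : Type) : MetricSpace D := by
  classical
  exact
  { dist := fun x y => if x = y then 0 else 1
    dist_self := fun x => by simp
    dist_comm := fun x y => by simp [eq_comm]
    dist_triangle := fun x y z => by
      by_cases hxy : x = y
      · subst hxy; simp
      · by_cases hyz : y = z
        · subst hyz; simp [hxy]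
        · simp only [hxy, hyz, if_false]
          split_ifs <;> norm_num
    eq_of_dist_eq_zero := fun {x y} h => by
      by_contra hne
      simp [hne] at h }

theorem disc_dist {D : Type} (x y : D) (h : x ≠ y) : (discMetric D).dist x y = 1 := by
  classical
  show (if x = y then (0 : ℝ) else 1) = 1
  rw [if_neg h]

theorem disc_discrete (D : Type) :
    @DiscreteTopology D (discMetric D).toPseudoMetricSpace.toUniformSpace.toTopologicalSpace := by
  letI := discMetric D
  apply DiscreteTopology.of_forall_le_dist (r := 1) one_pos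
  intro x y hxy
  exact le_of_eq (disc_dist x y hxy).symm

theorem disc_complete (D : Type) :
    @CompleteSpace D (discMetric D).toPseudoMetricSpace.toUniformSpace := by
  letI := discMetric D
  apply Metric.complete_of_cauchySeq_tendsto
  intro u hu
  rw [Metric.cauchySeq_iff'] at hu
  obtain ⟨N, hN⟩ := hu 1 one_pos
  refine ⟨u N, ?_⟩
  apply tendsto_const_nhds.congr'
  filter_upwards [eventually_ge_atTop N] with n hn
  by_contra hne
  have h1 := hN n hn
  have h2 : dist (u n) (u N) = 1 := disc_dist _ _ (fun h => hne h.symm)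
  rw [h2] at h1
  exact lt_irrefl _ h1

/-- Statement to refute. -/
def Stmt : Prop :=
    ∀ (G : Type) [Group G] [MetricSpace G] [IsTopologicalGroup G] [CompleteSpace G],
      (∃ a b : G, a * b ≠ b * a) →
      ∀ (n : ℕ) (U : Fin n → G →* G),
        (∀ S : Set (G → G),
          (∀ f : G → G, Continuous f → f ∈ S) →
          (∀ (f : ℕ → G → G) (g : G → G), (∀ k, f k ∈ S) →
            (∀ x, Filter.Tendsto (fun k => f k x) Filter.atTop (nhds (g x))) → g ∈ S) →
          (fun x => (List.ofFn (fun i => U i x)).prod) ∈ S) →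
        Continuous (fun x => (List.ofFn (fun i => U i x)).prod)

/-- The topological factor. -/
abbrev X2 : Type := Multiplicative ℤ_[2]

theorem final (D : Type) [Group D] (hnc : ∃ a b : D, a * b ≠ b * a)
    (θ : Fin 4 → X2 →* D) (w : D) (hw : w ≠ 1)
    (h : ∀ x : X2, x ≠ 1 → θ 0 x * θ 1 x * θ 2 x * θ 3 x = w) : ¬ Stmt := by
  intro hS
  letI mD : MetricSpace D := discMetric D
  haveI : DiscreteTopology D := disc_discrete D
  haveI : CompleteSpace D := disc_complete D
  haveI : CompleteSpace X2 := inferInstanceAs (CompleteSpace ℤ_[2])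
  classical
  let G := X2 × D
  let U : Fin 4 → G →* G := fun i => (MonoidHom.inr X2 D).comp ((θ i).comp (MonoidHom.fst X2 D))
  have hprod : ∀ x : G, (List.ofFn (fun i => U i x)).prod = (1, if x.1 = 1 then 1 else w) := by
    intro x
    have e0 : (List.ofFn (fun i => U i x)).prod = U 0 x * U 1 x * U 2 x * U 3 x := by
      simp only [List.ofFn_succ, List.ofFn_zero, List.prod_cons, List.prod_nil, mul_one, mul_assoc]
      rfl
    have e2 : ∀ i, U i x = ((1 : X2), θ i x.1) := fun i => rfl
    have e : (List.ofFn (fun i => U i x)).prod = ((1 : X2), θ 0 x.1 * θ 1 x.1 * θ 2 x.1 * θ 3 x.1) := by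
      rw [e0, e2, e2, e2, e2, Prod.mk_mul_mk, Prod.mk_mul_mk, Prod.mk_mul_mk]
      simp
    rw [e]
    by_cases hx : x.1 = 1
    · rw [if_pos hx, hx]
      simp
    · rw [if_neg hx, h x.1 hx]
  have hcont := hS G (by
      obtain ⟨a, b, hab⟩ := hnc
      refine ⟨(1, a), (1, b), fun hh => hab ?_⟩
      exact congrArg Prod.snd hh) 4 U (by
    intro S hc hl
    -- approximations
    let f : ℕ → G → G := fun m x =>
      (1, if Multiplicative.toAdd x.1 ∈ Metric.ball (0 : ℤ_[2]) (1 / ((m : ℝ) + 1)) then 1 else w)
    refine hl f _ (fun m => hc _ ?_) ?_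
    · apply Continuous.prodMk continuous_const
      have hclopen : IsClopen {x : G | Multiplicative.toAdd x.1 ∈
          Metric.ball (0 : ℤ_[2]) (1 / ((m : ℝ) + 1))} := by
        have h1 : IsClopen (Metric.ball (0 : ℤ_[2]) (1 / ((m : ℝ) + 1))) :=
          IsUltrametricDist.isClopen_ball _ _
        have h2 : Continuous (fun x : G => Multiplicative.toAdd x.1) :=
          continuous_toAdd.comp continuous_fst
        exact h1.preimage h2
      exact (IsLocallyConstant.iff_continuous _).mp (by
        rw [IsLocallyConstant.iff_exists_open]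
        intro x
        by_cases hx : Multiplicative.toAdd x.1 ∈ Metric.ball (0 : ℤ_[2]) (1 / ((m : ℝ) + 1))
        · refine ⟨_, hclopen.isOpen, hx, ?_⟩
          intro y hy
          have hy' : Multiplicative.toAdd y.1 ∈ Metric.ball (0 : ℤ_[2]) (1 / ((m : ℝ) + 1)) := hy
          rw [if_pos hx, if_pos hy']
        · refine ⟨_, hclopen.compl.isOpen, hx, ?_⟩
          intro y hy
          have hy' : ¬ Multiplicative.toAdd y.1 ∈ Metric.ball (0 : ℤ_[2]) (1 / ((m : ℝ) + 1)) := hy
          rw [if_neg hx, if_neg hy'])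
    · intro x
      show Tendsto (fun k => f k x) atTop (nhds ((List.ofFn (fun i => U i x)).prod))
      rw [hprod x]
      apply tendsto_const_nhds.congr'
      by_cases hx : x.1 = 1
      · filter_upwards with m
        have hm : Multiplicative.toAdd x.1 ∈ Metric.ball (0 : ℤ_[2]) (1 / ((m : ℝ) + 1)) := by
          rw [hx]
          simp
          positivity
        show _ = ((1 : X2), if Multiplicative.toAdd x.1 ∈ Metric.ball (0 : ℤ_[2]) (1 / ((m : ℝ) + 1))
          then (1 : D) else w)
        rw [if_pos hx, if_pos hm]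
      · have hx0 : Multiplicative.toAdd x.1 ≠ 0 := fun hh => hx hh
        have hpos : 0 < ‖Multiplicative.toAdd x.1‖ := norm_pos_iff.mpr hx0
        obtain ⟨N, hN⟩ := exists_nat_one_div_lt hpos
        filter_upwards [eventually_ge_atTop N] with m hm
        have hnot : ¬ Multiplicative.toAdd x.1 ∈ Metric.ball (0 : ℤ_[2]) (1 / ((m : ℝ) + 1)) := by
          intro hb
          rw [Metric.mem_ball, dist_zero_right] at hb
          have h3 : 1 / ((m : ℝ) + 1) ≤ 1 / ((N : ℝ) + 1) := by
            apply one_div_le_one_div_of_le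
            · positivity
            · have : (N : ℝ) ≤ m := by exact_mod_cast hm
              linarith
          linarith
        show _ = ((1 : X2), if Multiplicative.toAdd x.1 ∈ Metric.ball (0 : ℤ_[2]) (1 / ((m : ℝ) + 1))
          then (1 : D) else w)
        rw [if_neg hx, if_neg hnot])
  -- discontinuity at the identity
  have hseq : Tendsto (fun m : ℕ => ((Multiplicative.ofAdd ((2 : ℤ_[2]) ^ m), (1 : D)) : G)) atTop
      (nhds ((1 : X2), (1 : D))) := by
    apply Tendsto.prodMk_nhds _ tendsto_const_nhds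
    have h1 : Tendsto (fun m : ℕ => (2 : ℤ_[2]) ^ m) atTop (nhds 0) := by
      apply tendsto_pow_atTop_nhds_zero_of_norm_lt_one
      have : ‖(2 : ℤ_[2])‖ = 2⁻¹ := by
        have := PadicInt.norm_p (p := 2)
        simpa using this
      rw [this]
      norm_num
    have h2 : Tendsto (fun m : ℕ => Multiplicative.ofAdd ((2 : ℤ_[2]) ^ m)) atTop
        (nhds (Multiplicative.ofAdd (0 : ℤ_[2]))) :=
      (continuous_ofAdd.tendsto 0).comp h1
    exact h2
  have h4 := (hcont.tendsto ((1 : X2), (1 : D))).comp hseq
  have h5 : Tendsto (fun m : ℕ => (1, w) : ℕ → G) atTop (nhds ((1 : X2), (1 : D))) := by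
    have e1 : (List.ofFn (fun i => U i ((1 : X2), (1 : D)))).prod = ((1 : X2), (1 : D)) := by
      rw [hprod]
      simp
    rw [e1] at h4
    refine h4.congr (fun m => ?_)
    show (List.ofFn (fun i => U i (Multiplicative.ofAdd ((2 : ℤ_[2]) ^ m), (1 : D)))).prod = (1, w)
    rw [hprod]
    have hne : ¬ (Multiplicative.ofAdd ((2 : ℤ_[2]) ^ m) = 1) := by
      intro hh
      have h6 : ((2 : ℤ_[2]) ^ m) = 0 := hh
      exact pow_ne_zero m two_ne_zero h6
    rw [if_neg hne]
  have h6 : ((1 : X2), w) = ((1 : X2), (1 : D)) := tendsto_nhds_unique tendsto_const_nhds h5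
  exact hw (congrArg Prod.snd h6)

theorem nontriv : Nontrivial (Nt X2) := by
  refine ⟨⟨Multiplicative.ofAdd 1, ?_⟩, ⟨Multiplicative.ofAdd 2, ?_⟩, ?_⟩
  · intro h
    have : (1 : ℤ_[2]) = 0 := h
    exact one_ne_zero this
  · intro h
    have : (2 : ℤ_[2]) = 0 := h
    exact two_ne_zero this
  · intro h
    have h1 : (1 : ℤ_[2]) = 2 := congrArg (fun x : Nt X2 => Multiplicative.toAdd x.1) h
    have h2 : (1 : ℤ_[2]) = 0 := by linear_combination -h1
    exact one_ne_zero h2

theorem main : ¬ Stmt := by
  haveI := nontriv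
  obtain ⟨θ, w, hw, h⟩ := exists_homs (X := X2)
  apply final (Ga X2 × Equiv.Perm (Fin 3)) ?_ (fun i => (MonoidHom.inl _ _).comp (θ i)) (w, 1)
  · intro hh
    exact hw (congrArg Prod.fst hh)
  · intro x hx
    ext
    · exact h x hx
    · simp
  · refine ⟨(1, Equiv.swap 0 1), (1, Equiv.swap 1 2), fun hh => ?_⟩
    have h1 : (Equiv.swap 0 1 * Equiv.swap 1 2 : Equiv.Perm (Fin 3)) = Equiv.swap 1 2 * Equiv.swap 0 1 :=
      congrArg Prod.snd hh
    revert h1
    decide

end Pool.Agent.H109R2.BH
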